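import Pool.Agent.Lib.MP_d255c3_lc.AllP.Val
import Pool.Agent.Lib.MP_d255c3_lc.ValRing

set_option autoImplicit false

open FirstOrder

namespace Pool.Agent.Results.MP_d255c3_lc.EveryPositiveChar

open Pool.Agent.Lib.MP_d255c3_lc Pool.Agent.Lib.MP_d255c3_lc.AllP

/-- Let `K` be any algebraically closed field of positive characteristic. In the field `K(Z)` the
following sets are definable with parameters in the language of rings: some valuation ring
different from `K(Z)`, the constant field `K`, the polynomial ring `K[Z]` and every valuation ring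
which contains `K`. If `K` is algebraic over its prime field, then every valuation ring of `K(Z)`
is definable. -/
theorem result (p : ℕ) [Fact p.Prime] (K : Type) [Field K] [CharP K p] [IsAlgClosed K]
    [FirstOrder.Ring.CompatibleRing (RatFunc K)] :
    (∃ R : ValuationSubring (RatFunc K), R ≠ ⊤ ∧
      Set.Definable (Set.univ : Set (RatFunc K)) FirstOrder.Language.ring
        {x : Fin 1 → RatFunc K | x 0 ∈ R}) ∧
    Set.Definable (Set.univ : Set (RatFunc K)) FirstOrder.Language.ring
      {x : Fin 1 → RatFunc K | ∃ c : K, x 0 = RatFunc.C c} ∧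
    Set.Definable (Set.univ : Set (RatFunc K)) FirstOrder.Language.ring
      {x : Fin 1 → RatFunc K | ∃ f : Polynomial K, x 0 = algebraMap (Polynomial K) (RatFunc K) f} ∧
    (∀ R : ValuationSubring (RatFunc K), (∀ c : K, RatFunc.C c ∈ R) →
      Set.Definable (Set.univ : Set (RatFunc K)) FirstOrder.Language.ring
        {x : Fin 1 → RatFunc K | x 0 ∈ R}) ∧
    ((∀ c : K, ∃ r, 0 < r ∧ c ^ p ^ r = c) → ∀ R : ValuationSubring (RatFunc K),
      Set.Definable (Set.univ : Set (RatFunc K)) FirstOrder.Language.ring
        {x : Fin 1 → RatFunc K | x 0 ∈ R}) := by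
  refine ⟨⟨R0 K, R0_ne_top, definable_of_C_mem (p := p) fun c => ?_⟩,
    DPInK (p := p) (DFn.var 0), DPInPoly (p := p) (DFn.var 0),
    fun R hR => definable_of_C_mem (p := p) hR,
    fun hK R => definable_of_C_mem (p := p) (C_mem_of_algebraic hK R)⟩
  rw [mem_R0]
  have h1 : (RatFunc.C c : RatFunc K) = algebraMap (Polynomial K) (RatFunc K) (Polynomial.C c) := by
    simp
  rw [h1, RatFunc.denom_algebraMap]
  exact Polynomial.prime_X.not_dvd_one

end Pool.Agent.Results.MP_d255c3_lc.EveryPositiveChar
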